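import Pool.Agent.helper97.BG.PD

set_option autoImplicit false

/-!
# Kummer condition for the pentagon data (module KC)
-/

namespace Pool.Agent.helper97.BG

open Polynomial

namespace KC

section one

variable {E F : Type*} [Field E] [Field F] [Algebra E F]

theorem rm_mul {p q : E[X]} (r : E) (hp : p ≠ 0) (hq : q ≠ 0) :
    rootMultiplicity r (p * q) = rootMultiplicity r p + rootMultiplicity r q :=
  rootMultiplicity_mul (mul_ne_zero hp hq)

theorem rm_pow {p : E[X]} (r : E) (hp : p ≠ 0) (n : ℕ) :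
    rootMultiplicity r (p ^ n) = n * rootMultiplicity r p := by
  induction n with
  | zero => simp
  | succ n ih =>
    rw [pow_succ, rm_mul r (pow_ne_zero _ hp) hp, ih]
    ring

theorem val_key {x : F} (hx : Transcendental E x)
    (hgen : IntermediateField.adjoin E {x} = ⊤) {A B : E[X]} (hA : A ≠ 0) (hB : B ≠ 0) {b : F}
    (h : aeval x A = aeval x B * b ^ 5) :
    (∀ r, ∃ s t : ℕ, rootMultiplicity r A + 5 * s = rootMultiplicity r B + 5 * t) ∧
      ∃ s t : ℕ, natDegree A + 5 * s = natDegree B + 5 * t := by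
  have hinj : ∀ p : E[X], aeval x p = 0 → p = 0 := transcendental_iff.1 hx
  have hb : b ∈ IntermediateField.adjoin E {x} := by rw [hgen]; trivial
  obtain ⟨P, Q, hPQ⟩ := (IntermediateField.mem_adjoin_simple_iff E b).1 hb
  have hAx : aeval x A ≠ 0 := fun h0 => hA (hinj A h0)
  have hb0 : b ≠ 0 := by
    rintro rfl
    rw [zero_pow (by norm_num), mul_zero] at h
    exact hAx h
  have hQx : aeval x Q ≠ 0 := fun h0 => hb0 (by rw [hPQ, h0, div_zero])
  have hPx : aeval x P ≠ 0 := fun h0 => hb0 (by rw [hPQ, h0, zero_div])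
  have hQ : Q ≠ 0 := fun h0 => hQx (by rw [h0, map_zero])
  have hP : P ≠ 0 := fun h0 => hPx (by rw [h0, map_zero])
  have heq : A * Q ^ 5 = B * P ^ 5 := by
    have h1 : aeval x (A * Q ^ 5 - B * P ^ 5) = 0 := by
      rw [map_sub, map_mul, map_mul, map_pow, map_pow, h, hPQ, div_pow]
      field_simp
      ring
    exact sub_eq_zero.1 (hinj _ h1)
  refine ⟨fun r => ⟨rootMultiplicity r Q, rootMultiplicity r P, ?_⟩,
    ⟨natDegree Q, natDegree P, ?_⟩⟩
  · have h2 := congrArg (rootMultiplicity r) heq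
    rwa [rm_mul r hA (pow_ne_zero _ hQ), rm_mul r hB (pow_ne_zero _ hP), rm_pow r hQ,
      rm_pow r hP] at h2
  · have h2 := congrArg natDegree heq
    rwa [natDegree_mul hA (pow_ne_zero _ hQ), natDegree_mul hB (pow_ne_zero _ hP), natDegree_pow,
      natDegree_pow] at h2

/-- the numerator of `g` -/
noncomputable def G (y : E) (c : Fin 5 → E) : E[X] :=
  C (c 3 * y ^ 2 - c 0 * y) * X ^ 2 + C (c 0 - c 1 * y ^ 2 - c 2 - 2 * c 3 * y) * X +
    C (c 1 * y + c 2 + c 3 + c 4 * (1 - y))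

/-- `1 - y X` -/
noncomputable def T (y : E) : E[X] := C (-y) * (X - C y⁻¹)

/-- `1 - X` -/
noncomputable def S (E : Type*) [Field E] : E[X] := C (-1) * (X - C 1)

noncomputable def AA (y : E) (c : Fin 5 → E) (e : Fin 5 → ℕ) (e' : ℕ) : E[X] :=
  X ^ e 0 * (C (y ^ e 1 * (1 - y) ^ e 4) * (S E ^ e 2 * (T y ^ e 3 * G y c ^ e')))

theorem T_ne {y : E} (hy : y ≠ 0) : T y ≠ 0 :=
  mul_ne_zero (C_ne_zero.2 (neg_ne_zero.2 hy)) (X_sub_C_ne_zero _)

theorem S_ne : S E ≠ 0 := mul_ne_zero (C_ne_zero.2 (neg_ne_zero.2 one_ne_zero)) (X_sub_C_ne_zero _)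

theorem T_deg {y : E} (hy : y ≠ 0) : natDegree (T y) = 1 := by
  unfold T
  rw [natDegree_C_mul (neg_ne_zero.2 hy), natDegree_X_sub_C]

theorem S_deg : natDegree (S E) = 1 := by
  unfold S
  rw [natDegree_C_mul (neg_ne_zero.2 one_ne_zero), natDegree_X_sub_C]

theorem rm_CX {a r : E} (ha : a ≠ 0) : rootMultiplicity r (C a * (X - C r)) = 1 := by
  rw [rm_mul r (C_ne_zero.2 ha) (X_sub_C_ne_zero _), rootMultiplicity_C, rootMultiplicity_X_sub_C_self]

theorem rm_zero {p : E[X]} {r : E} (h : p.eval r ≠ 0) : rootMultiplicity r p = 0 :=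
  rootMultiplicity_eq_zero h

theorem main {x : F} (hx : Transcendental E x) (hgen : IntermediateField.adjoin E {x} = ⊤)
    {y : E} (hy0 : y ≠ 0) (hy1 : y ≠ 1) {c : Fin 5 → E} (hG : G y c ≠ 0)
    {u : Fin 5 → F} (h0 : u 0 = x) (h1 : u 1 = algebraMap E F y)
    (hu : ∀ i, u i + u (i + 2) * u (i + 3) = 1) {e : Fin 5 → ℕ} {e' : ℕ} {b : F}
    (h : (∏ i, u i ^ e i) * (∑ i, algebraMap E F (c i) * u i) ^ e' = b ^ 5) :
    (∀ r, ∃ s t : ℕ, e 0 * rootMultiplicity r (X : E[X]) + (e 2 * rootMultiplicity r (S E) +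
        (e 3 * rootMultiplicity r (T y) + e' * rootMultiplicity r (G y c))) + 5 * s
      = (e 2 + e 4 + e') * rootMultiplicity r (T y) + 5 * t) ∧
      ∃ s t : ℕ, e 0 + (e 2 + (e 3 + e' * natDegree (G y c))) + 5 * s
        = (e 2 + e 4 + e') + 5 * t := by
  have hinj : ∀ p : E[X], aeval x p = 0 → p = 0 := transcendental_iff.1 hx
  set t := aeval x (T y) with ht
  have ht0 : t ≠ 0 := fun h9 => T_ne hy0 (hinj _ h9)
  have hmap : algebraMap E F y ≠ 0 := by
    rw [Ne, map_eq_zero]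
    exact hy0
  have htx : t = 1 - algebraMap E F y * x := by
    rw [ht]
    simp only [T, map_mul, map_sub, aeval_X, aeval_C, map_neg, map_inv₀]
    field_simp
    ring
  have hsx : aeval x (S E) = 1 - x := by
    simp only [S, map_mul, map_sub, aeval_X, aeval_C, map_neg, map_one]
    ring
  have r3 := hu 3
  have r0 := hu 0
  have r1 := hu 1
  have e30 : (3 : Fin 5) + 2 = 0 := rfl
  have e31 : (3 : Fin 5) + 3 = 1 := rfl
  have e02 : (0 : Fin 5) + 2 = 2 := rfl
  have e03 : (0 : Fin 5) + 3 = 3 := rfl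
  have e13 : (1 : Fin 5) + 2 = 3 := rfl
  have e14 : (1 : Fin 5) + 3 = 4 := rfl
  rw [e30, e31, h0, h1] at r3
  rw [e02, e03, h0] at r0
  rw [e13, e14, h1] at r1
  have u3 : u 3 = t := by
    rw [htx]
    linear_combination r3
  rw [u3] at r0 r1
  have u2 : u 2 = (1 - x) / t := by
    rw [eq_div_iff ht0]
    linear_combination r0
  have u4 : u 4 = (1 - algebraMap E F y) / t := by
    rw [eq_div_iff ht0]
    linear_combination r1
  have hg : ∑ i, algebraMap E F (c i) * u i = aeval x (G y c) / t := by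
    rw [Fin.sum_univ_five, h0, h1, u2, u3, u4, eq_div_iff ht0]
    simp only [G, map_add, map_mul, map_sub, aeval_X, aeval_C, map_pow, map_one, map_ofNat]
    field_simp
    rw [htx]
    ring
  have hBne : T y ^ (e 2 + e 4 + e') ≠ 0 := pow_ne_zero _ (T_ne hy0)
  have hCne : (C (y ^ e 1 * (1 - y) ^ e 4) : E[X]) ≠ 0 :=
    C_ne_zero.2 (mul_ne_zero (pow_ne_zero _ hy0) (pow_ne_zero _ (sub_ne_zero.2 hy1.symm)))
  have n1 : T y ^ e 3 * G y c ^ e' ≠ 0 := mul_ne_zero (pow_ne_zero _ (T_ne hy0)) (pow_ne_zero _ hG)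
  have n2 : S E ^ e 2 * (T y ^ e 3 * G y c ^ e') ≠ 0 := mul_ne_zero (pow_ne_zero _ S_ne) n1
  have n3 := mul_ne_zero hCne n2
  have hAne : AA y c e e' ≠ 0 := mul_ne_zero (pow_ne_zero _ X_ne_zero) n3
  have hAB : aeval x (AA y c e e') = aeval x (T y ^ (e 2 + e 4 + e')) * b ^ 5 := by
    rw [← h, hg, Fin.prod_univ_five, h0, h1, u2, u3, u4]
    unfold AA
    simp only [map_mul, map_pow, aeval_X, aeval_C, hsx, ← ht, map_sub, map_one]
    rw [div_pow, div_pow, div_pow]
    field_simp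
    ring
  obtain ⟨k1, k2⟩ := val_key hx hgen hAne hBne hAB
  refine ⟨fun r => ?_, ?_⟩
  · obtain ⟨s, t', hst⟩ := k1 r
    refine ⟨s, t', ?_⟩
    unfold AA at hst
    rw [rm_mul r (pow_ne_zero _ X_ne_zero) n3, rm_mul r hCne n2,
      rm_mul r (pow_ne_zero _ S_ne) n1, rm_mul r (pow_ne_zero _ (T_ne hy0)) (pow_ne_zero _ hG),
      rm_pow r X_ne_zero, rm_pow r S_ne, rm_pow r (T_ne hy0), rm_pow r (T_ne hy0), rm_pow r hG,
      rootMultiplicity_C, zero_add] at hst
    exact hst
  · obtain ⟨s, t', hst⟩ := k2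
    refine ⟨s, t', ?_⟩
    unfold AA at hst
    rw [natDegree_mul (pow_ne_zero _ X_ne_zero) n3, natDegree_mul hCne n2,
      natDegree_mul (pow_ne_zero _ S_ne) n1,
      natDegree_mul (pow_ne_zero _ (T_ne hy0)) (pow_ne_zero _ hG),
      natDegree_pow, natDegree_pow, natDegree_pow, natDegree_pow, natDegree_pow, natDegree_C,
      natDegree_X, S_deg, T_deg hy0, zero_add, mul_one, mul_one, mul_one, mul_one] at hst
    exact hst

theorem G_eval0 (y : E) (c : Fin 5 → E) :
    (G y c).eval 0 = (c 2 + c 3 + c 4) + (c 1 - c 4) * y := by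
  simp [G]
  ring

theorem G_eval1 (y : E) (c : Fin 5 → E) :
    (G y c).eval 1 = (1 - y) * ((c 0 + c 3 + c 4) + (c 1 - c 3) * y) := by
  simp [G]
  ring

theorem G_evalinv {y : E} (hy : y ≠ 0) (c : Fin 5 → E) :
    (G y c).eval y⁻¹ = y⁻¹ * ((1 - y) * (-c 2 + c 4 * y)) := by
  simp only [G, eval_add, eval_mul, eval_C, eval_pow, eval_X]
  field_simp
  ring

theorem G_deg {y : E} {c : Fin 5 → E} (h : y * (-c 0 + c 3 * y) ≠ 0) :
    natDegree (G y c) = 2 := by
  unfold G
  refine natDegree_quadratic ?_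
  intro h9
  apply h
  linear_combination h9

theorem main' {k : Type*} [Field k] [Algebra k E] {x : F} (hx : Transcendental E x)
    (hgen : IntermediateField.adjoin E {x} = ⊤)
    {y : E} (hy : Transcendental k y) {c : Fin 5 → k}
    {u : Fin 5 → F} (h0 : u 0 = x) (h1 : u 1 = algebraMap E F y)
    (hu : ∀ i, u i + u (i + 2) * u (i + 3) = 1) {e : Fin 5 → ℕ} {e' : ℕ} {b : F}
    (h : (∏ i, u i ^ e i) * (∑ i, algebraMap E F (algebraMap k E (c i)) * u i) ^ e' = b ^ 5)
    (h234 : c 2 + c 3 + c 4 ≠ 0) (h034 : c 0 + c 3 + c 4 ≠ 0) :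
    5 ∣ e 0 ∧ 5 ∣ e 2 ∧ (c 2 ≠ 0 → ∃ s t, e 3 + 5 * s = (e 2 + e 4 + e') + 5 * t) ∧
      (c 0 ≠ 0 → ∃ s t, e 0 + (e 2 + (e 3 + e' * 2)) + 5 * s = (e 2 + e 4 + e') + 5 * t) := by
  have hlin : ∀ a b : k, a ≠ 0 → algebraMap k E a + algebraMap k E b * y ≠ 0 := by
    intro a b ha h9
    have h10 : (C a + C b * X : k[X]) = 0 := by
      refine transcendental_iff.1 hy _ ?_
      simpa using h9
    have h11 := congrArg (fun p => eval 0 p) h10
    simp at h11
    exact ha h11
  have hy0 : y ≠ 0 := fun h9 => by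
    have := hlin 1 0 one_ne_zero
    have h10 : (X : k[X]) = 0 := transcendental_iff.1 hy _ (by simpa using h9)
    exact X_ne_zero h10
  have hy1 : y ≠ 1 := fun h9 => by
    have := hlin 1 (-1) one_ne_zero
    apply this
    rw [h9]
    simp
  have hy1' : 1 - y ≠ 0 := sub_ne_zero.2 hy1.symm
  set c' : Fin 5 → E := fun i => algebraMap k E (c i) with hc'
  have g0 : (G y c').eval 0 ≠ 0 := by
    rw [G_eval0]
    have := hlin (c 2 + c 3 + c 4) (c 1 - c 4) h234
    simpa [hc'] using this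
  have g1 : (G y c').eval 1 ≠ 0 := by
    rw [G_eval1]
    refine mul_ne_zero hy1' ?_
    have := hlin (c 0 + c 3 + c 4) (c 1 - c 3) h034
    simpa [hc'] using this
  have hG : G y c' ≠ 0 := by
    intro h9
    rw [h9] at g0
    simp at g0
  obtain ⟨m1, m2⟩ := main hx hgen hy0 hy1 hG h0 h1 hu h
  refine ⟨?_, ?_, fun hc2 => ?_, fun hc0 => ?_⟩
  · obtain ⟨s, t, hst⟩ := m1 0
    rw [rm_zero (p := S E) (by simp [S]), rm_zero (p := T y) (by simp [T, hy0]), rm_zero g0,
      show rootMultiplicity 0 (X : E[X]) = 1 by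
        have := rootMultiplicity_X_sub_C_self (x := (0 : E))
        simpa using this] at hst
    omega
  · obtain ⟨s, t, hst⟩ := m1 1
    rw [rm_zero (p := (X : E[X])) (by simp), rm_zero (p := T y) (by
        simp only [T, eval_mul, eval_sub, eval_X, eval_C]
        refine mul_ne_zero (neg_ne_zero.2 hy0) (sub_ne_zero.2 ?_)
        intro h9
        exact hy1 (by rw [← inv_inv y, ← h9, inv_one])), rm_zero g1,
      show rootMultiplicity 1 (S E) = 1 from rm_CX (neg_ne_zero.2 one_ne_zero)] at hst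
    omega
  · obtain ⟨s, t, hst⟩ := m1 y⁻¹
    have hinv1 : y⁻¹ ≠ 1 := fun h9 => hy1 (by rw [← inv_inv y, h9, inv_one])
    rw [rm_zero (p := (X : E[X])) (by simpa using hy0), rm_zero (p := S E) (by
        simp only [S, eval_mul, eval_sub, eval_X, eval_C]
        exact mul_ne_zero (neg_ne_zero.2 one_ne_zero) (sub_ne_zero.2 hinv1)),
      rm_zero (p := G y c') (by
        rw [G_evalinv hy0]
        refine mul_ne_zero (inv_ne_zero hy0) (mul_ne_zero hy1' ?_)
        have := hlin (-c 2) (c 4) (neg_ne_zero.2 hc2)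
        simpa [hc'] using this),
      show rootMultiplicity y⁻¹ (T y) = 1 from rm_CX (neg_ne_zero.2 hy0)] at hst
    exact ⟨s, t, by omega⟩
  · obtain ⟨s, t, hst⟩ := m2
    rw [G_deg (by
      refine mul_ne_zero hy0 ?_
      have := hlin (-c 0) (c 3) (neg_ne_zero.2 hc0)
      simpa [hc'] using this)] at hst
    exact ⟨s, t, hst⟩

end one

/-- application to one ordering of the two coordinates -/
theorem app {k F : Type*} [Field k] [Field F] [Algebra k F] (u : Fin 5 → F)
    (hu : ∀ i, u i + u (i + 2) * u (i + 3) = 1) (hind : AlgebraicIndependent k ![u 0, u 1])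
    (hgen : IntermediateField.adjoin k {u 0, u 1} = ⊤) {c : Fin 5 → k}
    (h234 : c 2 + c 3 + c 4 ≠ 0) (h034 : c 0 + c 3 + c 4 ≠ 0)
    (e : Fin 5 → ℕ) (e' : ℕ) (b : F)
    (h : (∏ i, u i ^ e i) * (∑ i, algebraMap k F (c i) * u i) ^ e' = b ^ 5) :
    5 ∣ e 0 ∧ 5 ∣ e 2 ∧ (c 2 ≠ 0 → ∃ s t, e 3 + 5 * s = (e 2 + e 4 + e') + 5 * t) ∧
      (c 0 ≠ 0 → ∃ s t, e 0 + (e 2 + (e 3 + e' * 2)) + 5 * s = (e 2 + e 4 + e') + 5 * t) := by
  have hx0 := hind.transcendental_adjoin (s := {1}) (i := 0) (by simp)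
  have himg : (![u 0, u 1] : Fin 2 → F) '' {1} = {u 1} := by simp
  rw [himg] at hx0
  have hx : Transcendental (IntermediateField.adjoin k {u 1}) (u 0) :=
    IntermediateField.transcendental_adjoin_iff.2 hx0
  have hy0 : Transcendental k (u 1) := hind.transcendental 1
  set y : IntermediateField.adjoin k {u 1} := IntermediateField.AdjoinSimple.gen k (u 1) with hy
  have hyu : algebraMap (IntermediateField.adjoin k {u 1}) F y = u 1 :=
    IntermediateField.AdjoinSimple.algebraMap_gen k (u 1)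
  have hyt : Transcendental k y := by
    intro halg
    apply hy0
    have := halg.algebraMap (A := F)
    rwa [hyu] at this
  have hgen' : IntermediateField.adjoin (IntermediateField.adjoin k {u 1}) {u 0} = ⊤ := by
    have h1 := IntermediateField.adjoin_simple_adjoin_simple (F := k) (α := u 1) (β := u 0)
    rw [Set.pair_comm, hgen] at h1
    exact IntermediateField.restrictScalars_eq_top_iff.1 h1
  refine main' (k := k) hx hgen' hyt rfl hyu.symm hu (b := b) ?_ h234 h034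
  rw [← h]
  congr 2

end KC

theorem kum_ind {k F : Type*} [Field k] [Field F] [Algebra k F] (u : Fin 5 → F)
    (hu : ∀ i, u i + u (i + 2) * u (i + 3) = 1) (hind : AlgebraicIndependent k ![u 0, u 1])
    (hgen : IntermediateField.adjoin k {u 0, u 1} = ⊤) {c : Fin 5 → k} (hc : KumCond c)
    (e : Fin 5 → ℕ) (e' : ℕ) (b : F)
    (h : (∏ i, u i ^ e i) * (∑ i, algebraMap k F (c i) * u i) ^ e' = b ^ 5) :
    (∀ i, 5 ∣ e i) ∧ 5 ∣ e' := by
  obtain ⟨a0, a2, a3, a4⟩ := KC.app u hu hind hgen hc.h234 hc.h034 e e' b h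
  obtain ⟨s, t, hst⟩ := a3 hc.h2
  obtain ⟨s', t', hst'⟩ := a4 hc.h0
  -- the reflection
  let σ : Fin 5 → Fin 5 := fun i => 1 - i
  have hσ : Function.Bijective σ := by decide
  have q2 : ∀ i : Fin 5, (1 : Fin 5) - (i + 2) = 1 - i + 3 := by decide
  have q3 : ∀ i : Fin 5, (1 : Fin 5) - (i + 3) = 1 - i + 2 := by decide
  have hu' : ∀ i, u (σ i) + u (σ (i + 2)) * u (σ (i + 3)) = 1 := by
    intro i
    have h1 := hu (σ i)
    have h2 : σ (i + 2) = σ i + 3 := q2 i
    have h3 : σ (i + 3) = σ i + 2 := q3 i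
    rw [h2, h3, mul_comm]
    exact h1
  have hs0 : σ 0 = 1 := rfl
  have hs1 : σ 1 = 0 := rfl
  have hs2 : σ 2 = 4 := rfl
  have hs3 : σ 3 = 3 := rfl
  have hs4 : σ 4 = 2 := rfl
  have hind' : AlgebraicIndependent k ![u (σ 0), u (σ 1)] := by
    have h1 : (![u (σ 0), u (σ 1)] : Fin 2 → F) = ![u 0, u 1] ∘ ![1, 0] := by
      ext i
      fin_cases i <;> rfl
    rw [h1]
    exact hind.comp _ (by decide)
  have hgen' : IntermediateField.adjoin k {u (σ 0), u (σ 1)} = ⊤ := by
    rw [hs0, hs1, Set.pair_comm]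
    exact hgen
  obtain ⟨b0, b2, -⟩ := KC.app (fun i => u (σ i)) hu' hind' hgen' (c := fun i => c (σ i))
    (by
      simp only [hs2, hs3, hs4]
      have := hc.h234
      intro h9
      apply this
      linear_combination h9)
    (by
      simp only [hs0, hs3, hs4]
      have := hc.h123
      intro h9
      apply this
      linear_combination h9) (fun i => e (σ i)) e' b (by
      rw [← h]
      congr 1
      · exact Function.Bijective.prod_comp hσ (fun i => u i ^ e i)
      · congr 1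
        exact Function.Bijective.sum_comp hσ (fun i => algebraMap k F (c i) * u i))
  simp only [hs0, hs2] at b0 b2
  refine ⟨?_, by omega⟩
  intro i
  fin_cases i
  · exact a0
  · exact b0
  · exact a2
  · show 5 ∣ e 3
    omega
  · exact b2

end Pool.Agent.helper97.BG
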